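import Pool.Agent.N714.Dec.Main

/-!
# Asymptotic consequences
-/

set_option autoImplicit false

namespace Pool.Agent.N714.Dec

open Finset H568R2 H592R3 DomAC0 Filter Pool.Agent.R532.Et

/-- from a bound with `m` to a bound with `log N` -/
theorem growth_gen (A : Set ℕ) {k K e : ℕ} (hk : 2 ≤ k) {c1 : ℝ} (hc10 : 0 < c1)
    (hf : ∃ᶠ m : ℕ in atTop, ∃ N, N < k * 2 ^ (K * m) ∧
      Real.exp (c1 * m / Real.log m ^ e) ≤ rep A k N) :
    ∃ c : ℝ, 0 < c ∧ ∃ᶠ N : ℕ in atTop,
      Real.exp (c * Real.log N / Real.log (Real.log N) ^ e) ≤ rep A k N := by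
  classical
  set K2 : ℝ := k + K with hK2
  have hk0 : (0 : ℝ) < k := by
    have : 0 < k := by omega
    exact_mod_cast this
  have hK20 : 0 < K2 := by positivity
  set c : ℝ := min 1 (c1 / (K2 * 2 ^ e)) with hc
  have hc00 : 0 < c := lt_min one_pos (by positivity)
  have hcle1 : c ≤ 1 := min_le_left _ _
  have hcle2 : c * (K2 * 2 ^ e) ≤ c1 := by
    have := min_le_right 1 (c1 / (K2 * 2 ^ e))
    rw [← hc, le_div_iff₀ (by positivity)] at this
    exact this
  refine ⟨c, hc00, ?_⟩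
  rw [Filter.frequently_atTop]
  intro n0
  set n1 : ℕ := max n0 ⌈Real.exp (Real.exp 1)⌉₊ with hn1
  set Rm : ℕ := ∑ n ∈ range n1, rep A k n with hRm
  have hlo := (isLittleO_log_rpow_rpow_atTop ((e : ℕ) : ℝ)
    (show (0 : ℝ) < 1 / 2 by norm_num)).bound hc10
  have hlo2 : ∀ᶠ m : ℕ in atTop, ‖Real.log (m : ℝ) ^ ((e : ℕ) : ℝ)‖ ≤
      c1 * ‖(m : ℝ) ^ (1 / 2 : ℝ)‖ := tendsto_natCast_atTop_atTop.eventually hlo
  have hlo3 : ∀ᶠ m : ℕ in atTop, (Rm : ℝ) + 1 ≤ Real.sqrt m :=
    (Real.tendsto_sqrt_atTop.comp tendsto_natCast_atTop_atTop).eventually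
      (eventually_ge_atTop ((Rm : ℝ) + 1))
  obtain ⟨m, ⟨N, hNlt, hrep⟩, hm1, hm2, hm3⟩ :=
    (hf.and_eventually (hlo2.and (hlo3.and (eventually_ge_atTop 3)))).exists
  have hmR : (3 : ℝ) ≤ m := by exact_mod_cast hm3
  have hlm1 : 1 < Real.log m := by
    rw [Real.lt_log_iff_exp_lt (by linarith)]
    linarith [Real.exp_one_lt_d9]
  have hlm : 0 < Real.log m := by linarith
  -- the basic estimate
  have hX : Real.sqrt m ≤ c1 * m / Real.log m ^ e := by
    rw [Real.rpow_natCast, Real.norm_of_nonneg (by positivity),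
      Real.norm_of_nonneg (by positivity), ← Real.sqrt_eq_rpow] at hm1
    rw [le_div_iff₀ (by positivity)]
    have h1 : Real.sqrt m * Real.sqrt m = m := Real.mul_self_sqrt (by linarith)
    calc Real.sqrt m * Real.log m ^ e ≤ Real.sqrt m * (c1 * Real.sqrt m) := by gcongr
      _ = c1 * (Real.sqrt m * Real.sqrt m) := by ring
      _ = c1 * m := by rw [h1]
  have hNn : n1 ≤ N := by
    by_contra hcon
    push Not at hcon
    have h1 : rep A k N ≤ Rm := Finset.single_le_sum (f := fun n => rep A k n)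
      (fun _ _ => Nat.zero_le _) (Finset.mem_range.2 hcon)
    have h2 : (rep A k N : ℝ) ≤ Rm := by exact_mod_cast h1
    have h3 := Real.add_one_le_exp (c1 * m / Real.log m ^ e)
    linarith
  refine ⟨N, (le_max_left _ _).trans hNn, le_trans (Real.exp_le_exp.2 ?_) hrep⟩
  -- comparison of `N` and `m`
  have hNe : Real.exp (Real.exp 1) ≤ N := by
    refine (Nat.le_ceil _).trans ?_
    exact_mod_cast (le_max_right _ _).trans hNn
  have hN0 : (0 : ℝ) < N := lt_of_lt_of_le (Real.exp_pos _) hNe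
  have hL1 : Real.exp 1 ≤ Real.log N := by
    rw [Real.le_log_iff_exp_le hN0]
    exact hNe
  have hL0 : 0 < Real.log N := lt_of_lt_of_le (Real.exp_pos _) hL1
  have hLL : 1 ≤ Real.log (Real.log N) := by
    rw [Real.le_log_iff_exp_le hL0]
    exact hL1
  have hLm : Real.log N ≤ K2 * m := by
    have h1 : (N : ℝ) ≤ k * 2 ^ (K * m) := by exact_mod_cast hNlt.le
    have h2 := Real.log_le_log hN0 h1
    rw [Real.log_mul hk0.ne' (by positivity), Real.log_pow] at h2
    have h3 : Real.log k ≤ k := (Real.log_le_sub_one_of_pos hk0).trans (by linarith)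
    have h4 : Real.log 2 ≤ 1 := by
      have := Real.log_two_lt_d9
      linarith
    have h5 : ((K * m : ℕ) : ℝ) * Real.log 2 ≤ (K * m : ℕ) := by
      have : (0 : ℝ) ≤ ((K * m : ℕ) : ℝ) := Nat.cast_nonneg _
      nlinarith
    push_cast at h2 h5
    rw [hK2]
    nlinarith
  rcases le_total (Real.log N) (Real.sqrt m) with hcase | hcase
  · refine le_trans ?_ hX
    rw [div_le_iff₀ (by positivity)]
    have h1 : (1 : ℝ) ≤ Real.log (Real.log N) ^ e := one_le_pow₀ hLL
    have h2 : 0 ≤ Real.sqrt m := Real.sqrt_nonneg _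
    calc c * Real.log N ≤ 1 * Real.sqrt m := by gcongr
      _ ≤ Real.sqrt m * Real.log (Real.log N) ^ e := by nlinarith
  · have h1 : Real.log m / 2 ≤ Real.log (Real.log N) := by
      have h2 := Real.log_le_log (Real.sqrt_pos.2 (by linarith : (0 : ℝ) < m)) hcase
      rwa [Real.log_sqrt (by linarith)] at h2
    have h2 : c * Real.log N / Real.log (Real.log N) ^ e ≤
        c * (K2 * m) / (Real.log m / 2) ^ e := by gcongr
    refine h2.trans ?_
    rw [div_le_div_iff₀ (by positivity) (by positivity), div_pow, mul_div_assoc']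
    rw [le_div_iff₀ (by positivity)]
    have h3 : 0 ≤ (m : ℝ) * Real.log m ^ e := by positivity
    nlinarith

/-- a product of `h` values is at most a power of the largest -/
theorem prod_max {h : ℕ} (hh : 1 ≤ h) (A : Set ℕ) {k M : ℕ} (N : Fin h → ℕ)
    (hN : ∀ i, N i < M) {X : ℝ} (h1 : Real.exp (h * X) ≤ ∏ i, (2 * (rep A k (N i) : ℝ))) :
    ∃ N0, N0 < M ∧ Real.exp X ≤ 2 * (rep A k N0 : ℝ) := by
  haveI : Nonempty (Fin h) := ⟨⟨0, hh⟩⟩
  obtain ⟨i0, hi0⟩ := Finite.exists_max fun i => rep A k (N i)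
  refine ⟨N i0, hN i0, ?_⟩
  have h2 : Real.exp X ^ h ≤ (2 * (rep A k (N i0) : ℝ)) ^ h := by
    rw [← Real.exp_nat_mul]
    refine h1.trans ?_
    refine (Finset.prod_le_prod (fun i _ => by positivity) (g := fun _ => 2 * (rep A k (N i0) : ℝ))
      fun i _ => ?_).trans (le_of_eq ?_)
    · have : (rep A k (N i) : ℝ) ≤ rep A k (N i0) := by exact_mod_cast hi0 i
      linarith
    · rw [Finset.prod_const, Finset.card_univ, Fintype.card_fin]
  exact le_of_pow_le_pow_left₀ (by omega) (by positivity) h2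

open Classical in
theorem fib_one {m h b : ℕ} {a : Fin h → (Fin m → Bool) → ℕ}
    (ha : ∀ x, ∑ i, a i x = b + num x) (v : ℕ) :
    (univ.filter fun x => ∑ i, a i x = v).card ≤ 1 := by
  rw [Finset.card_le_one]
  intro x hx y hy
  have h1 := (Finset.mem_filter.1 hx).2
  have h2 := (Finset.mem_filter.1 hy).2
  rw [ha] at h1 h2
  exact num_inj (by omega)

theorem val_lt {m h b K : ℕ} (hm : 1 ≤ m) (hb : b ≤ 2 ^ (K * m)) {a : Fin h → (Fin m → Bool) → ℕ}
    (ha : ∀ x, ∑ i, a i x = b + num x) (i : Fin h) (x : Fin m → Bool) :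
    a i x < 2 ^ ((K + 2) * m) := by
  have h1 : a i x ≤ ∑ i, a i x := Finset.single_le_sum (f := fun i => a i x)
    (fun _ _ => Nat.zero_le _) (Finset.mem_univ i)
  rw [ha] at h1
  have h2 := num_lt x
  have h3 : 2 ^ (K * m) ≤ 2 ^ ((K + 1) * m) := Nat.pow_le_pow_right (by norm_num) (by nlinarith)
  have h4 : 2 ^ m ≤ 2 ^ ((K + 1) * m) := Nat.pow_le_pow_right (by norm_num) (by nlinarith)
  have h5 : 2 ^ ((K + 1) * m) + 2 ^ ((K + 1) * m) ≤ 2 ^ ((K + 2) * m) := by
    rw [← two_mul, ← pow_succ']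
    exact Nat.pow_le_pow_right (by norm_num) (by nlinarith)
  omega

/-- **Circuits for representations in sets with a bounded representation function are large.** -/
theorem lower (A : Set ℕ) {k R : ℕ} (hk : 2 ≤ k) (hR : ∀ n, rep A k n ≤ R) (h D K : ℕ)
    (hh : 1 ≤ h) : ∃ c : ℝ, 0 < c ∧ ∀ᶠ m : ℕ in atTop,
    ∀ (n b : ℕ) (C : Circuit (Fin m)) (out : Fin h → Fin n → Fin m ⊕ Fin C.size),
      b ≤ 2 ^ (K * m) → (∀ i j, C.nodeDepth (out i j) ≤ D) →
      (∀ i x, number (fun j x => C.nodeVal x (out i j)) x ∈ A) →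
      (∀ x, ∑ i, number (fun j x => C.nodeVal x (out i j)) x = b + num x) →
      Real.exp (c * (m : ℝ) ^ (1 / (2 * D + 2) : ℝ)) ≤ C.size := by
  classical
  obtain ⟨c0, hc0, H⟩ := main_circ D (K + 2) h (by omega) hh
  set L : ℝ := |h * Real.log (2 * R)| + 1 with hL
  have hL0 : 0 < L := by positivity
  set c1 : ℝ := (c0 / L) ^ (1 / (2 * D + 2) : ℝ) with hc1
  have hc10 : 0 < c1 := Real.rpow_pos_of_pos (by positivity) _
  have hs : (0 : ℝ) < 1 / (2 * D + 2) := by positivity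
  have hlo := (isLittleO_log_rpow_atTop hs).bound (half_pos hc10)
  have hlo2 : ∀ᶠ m : ℕ in atTop, ‖Real.log (m : ℝ)‖ ≤
      c1 / 2 * ‖(m : ℝ) ^ (1 / (2 * D + 2) : ℝ)‖ := tendsto_natCast_atTop_atTop.eventually hlo
  refine ⟨c1, hc10, ?_⟩
  filter_upwards [hlo2, eventually_ge_atTop 2] with m hm1 hm2
  intro n b C out hb hD hCA hC
  have hmR : (2 : ℝ) ≤ m := by exact_mod_cast hm2
  set S := max C.size m with hS
  obtain ⟨N, _, hN⟩ := H m n S 1 k (fun _ => A) C out (by omega) (le_trans hm2 (le_max_right _ _))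
    (le_max_right _ _) (le_max_left _ _) hk hD hCA
    (fun i x => val_lt (by omega) hb hC i x)
    (fun v => fib_one hC v)
  have hSR : (2 : ℝ) ≤ S := by
    have : 2 ≤ S := le_trans hm2 (le_max_right _ _)
    exact_mod_cast this
  have hlS : 0 < Real.log S := Real.log_pos (by linarith)
  have h1 : Real.exp (c0 * m / Real.log S ^ (2 * D + 2)) ≤ (2 * R) ^ h := by
    refine hN.trans ?_
    push_cast
    rw [one_mul]
    refine (Finset.prod_le_prod (fun i _ => by positivity) (g := fun _ => 2 * (R : ℝ))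
      fun i _ => ?_).trans (le_of_eq ?_)
    · have : (rep A k (N i) : ℝ) ≤ R := by exact_mod_cast hR (N i)
      linarith
    · rw [Finset.prod_const, Finset.card_univ, Fintype.card_fin]
  have h2 : c0 * m / Real.log S ^ (2 * D + 2) ≤ L := by
    have := Real.log_le_log (Real.exp_pos _) h1
    rw [Real.log_exp, Real.log_pow] at this
    have h3 := le_abs_self (h * Real.log (2 * R))
    linarith
  have h3 : c0 / L * m ≤ Real.log S ^ (2 * D + 2) := by
    rw [div_le_iff₀ (by positivity)] at h2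
    rw [div_mul_eq_mul_div, div_le_iff₀ hL0]
    linarith
  have h4 : c1 * (m : ℝ) ^ (1 / (2 * D + 2) : ℝ) ≤ Real.log S := by
    have h5 := Real.rpow_le_rpow (by positivity) h3 hs.le
    rw [Real.mul_rpow (by positivity) (by positivity)] at h5
    have h6 : (Real.log S ^ (2 * D + 2)) ^ (1 / (2 * D + 2) : ℝ) = Real.log S := by
      rw [← Real.rpow_natCast, ← Real.rpow_mul hlS.le]
      have : ((2 * D + 2 : ℕ) : ℝ) * (1 / (2 * D + 2)) = 1 := by
        push_cast
        field_simp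
      rw [this, Real.rpow_one]
    rw [h6] at h5
    exact h5
  have h5 : Real.log m < c1 * (m : ℝ) ^ (1 / (2 * D + 2) : ℝ) := by
    have h6 : 0 < (m : ℝ) ^ (1 / (2 * D + 2) : ℝ) := by positivity
    rw [Real.norm_of_nonneg (Real.log_nonneg (by linarith)), Real.norm_of_nonneg h6.le] at hm1
    nlinarith
  have h6 : S = C.size := by
    rcases max_choice C.size m with h | h
    · exact h
    · exfalso
      have : S = m := h
      rw [this] at h4
      linarith
  rw [h6] at h4 hSR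
  calc Real.exp (c1 * (m : ℝ) ^ (1 / (2 * D + 2) : ℝ)) ≤ Real.exp (Real.log C.size) :=
        Real.exp_le_exp.2 h4
    _ = C.size := Real.exp_log (by linarith)

theorem exp_half {X Y : ℝ} (h1 : 1 ≤ X) (h : Real.exp (X + X) ≤ 2 * Y) : Real.exp X ≤ Y := by
  rw [Real.exp_add] at h
  have h2 : (2 : ℝ) ≤ Real.exp X := by
    have := Real.add_one_le_exp X
    linarith
  have h3 : 0 < Real.exp X := Real.exp_pos _
  nlinarith

/-- **Growth of the representation function: circuits of polynomial size.** -/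
theorem growth (A : Set ℕ) {k : ℕ} (hk : 2 ≤ k) (h D K e : ℕ) (hh : 1 ≤ h)
    (hf : ∃ᶠ m : ℕ in atTop, ∃ (n b : ℕ) (C : Circuit (Fin m))
      (out : Fin h → Fin n → Fin m ⊕ Fin C.size), C.size ≤ m ^ e ∧
      b ≤ 2 ^ (K * m) ∧ (∀ i j, C.nodeDepth (out i j) ≤ D) ∧
      (∀ i x, number (fun j x => C.nodeVal x (out i j)) x ∈ A) ∧
      (∀ x, ∑ i, number (fun j x => C.nodeVal x (out i j)) x = b + num x)) :
    ∃ c : ℝ, 0 < c ∧ ∃ᶠ N : ℕ in atTop,
      Real.exp (c * Real.log N / Real.log (Real.log N) ^ (2 * D + 2)) ≤ rep A k N := by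
  classical
  obtain ⟨c0, hc0, H⟩ := main_circ D (K + 2) h (by omega) hh
  have hhR : (1 : ℝ) ≤ h := by exact_mod_cast hh
  set c1 : ℝ := c0 / (2 * h * (e + 1) ^ (2 * D + 2)) with hc1
  have hc10 : 0 < c1 := by positivity
  refine growth_gen A (K := K + 2) hk hc10 ?_
  have hlo := (isLittleO_log_rpow_rpow_atTop ((2 * D + 2 : ℕ) : ℝ)
    (show (0 : ℝ) < 1 by norm_num)).bound hc10
  have hlo2 : ∀ᶠ m : ℕ in atTop, ‖Real.log (m : ℝ) ^ ((2 * D + 2 : ℕ) : ℝ)‖ ≤
      c1 * ‖(m : ℝ) ^ (1 : ℝ)‖ := tendsto_natCast_atTop_atTop.eventually hlo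
  refine (hf.and_eventually (hlo2.and (eventually_ge_atTop 3))).mono ?_
  rintro m ⟨⟨n, b, C, out, hsz, hb, hD, hCA, hC⟩, hm1, hm3⟩
  have hmR : (3 : ℝ) ≤ m := by exact_mod_cast hm3
  have hlm1 : 1 < Real.log m := by
    rw [Real.lt_log_iff_exp_lt (by linarith)]
    linarith [Real.exp_one_lt_d9]
  have hlm : 0 < Real.log m := by linarith
  set S := m ^ (e + 1) with hS
  have hmS : m ≤ S := by
    rw [hS]
    exact Nat.le_self_pow (by omega) m
  obtain ⟨N, hNlt, hN⟩ := H m n S 1 k (fun _ => A) C out (by omega) (by omega) hmS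
    (hsz.trans (Nat.pow_le_pow_right (by omega) (by omega))) hk hD hCA
    (fun i x => val_lt (by omega) hb hC i x)
    (fun v => fib_one hC v)
  have hlogS : Real.log S = (e + 1) * Real.log m := by
    rw [hS]
    push_cast
    rw [Real.log_pow]
    push_cast
    ring
  have h1 : c0 * m / Real.log S ^ (2 * D + 2) =
      h * (c1 * m / Real.log m ^ (2 * D + 2) + c1 * m / Real.log m ^ (2 * D + 2)) := by
    rw [hlogS, hc1, mul_pow]
    field_simp
    ring
  rw [h1] at hN
  push_cast at hN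
  rw [one_mul] at hN
  obtain ⟨N0, hN0, hN1⟩ := prod_max hh A N hNlt hN
  refine ⟨N0, hN0, exp_half ?_ hN1⟩
  rw [Real.rpow_natCast, Real.rpow_one, Real.norm_of_nonneg (by positivity),
    Real.norm_of_nonneg (by positivity)] at hm1
  rw [le_div_iff₀ (by positivity), one_mul]
  exact hm1

/-- **Growth of the representation function: few digit probes.** -/
theorem growth_dt (A : Set ℕ) {k : ℕ} (hk : 2 ≤ k) (h K B e : ℕ) (hh : 1 ≤ h)
    (hf : ∃ᶠ m : ℕ in atTop, ∃ (n b t : ℕ) (f : Fin h → Fin n → (Fin m → Bool) → Bool),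
      (t : ℝ) ≤ B * Real.log m ^ e ∧ b ≤ 2 ^ (K * m) ∧ (∀ i j, DT t (f i j)) ∧
      (∀ i x, number (f i) x ∈ A) ∧ (∀ x, ∑ i, number (f i) x = b + num x)) :
    ∃ c : ℝ, 0 < c ∧ ∃ᶠ N : ℕ in atTop,
      Real.exp (c * Real.log N / Real.log (Real.log N) ^ (2 * e)) ≤ rep A k N := by
  classical
  have hhR : (1 : ℝ) ≤ h := by exact_mod_cast hh
  have hl2 : 0 < Real.log 2 := Real.log_pos (by norm_num)
  set c1 : ℝ := Real.log 2 / (4608 * (h * (K + 2)) * (B + 1) ^ 2) / (2 * h) with hc1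
  have hc10 : 0 < c1 := by positivity
  refine growth_gen A (K := K + 2) hk hc10 ?_
  have hlo := (isLittleO_log_rpow_rpow_atTop ((2 * e : ℕ) : ℝ)
    (show (0 : ℝ) < 1 by norm_num)).bound hc10
  have hlo2 : ∀ᶠ m : ℕ in atTop, ‖Real.log (m : ℝ) ^ ((2 * e : ℕ) : ℝ)‖ ≤
      c1 * ‖(m : ℝ) ^ (1 : ℝ)‖ := tendsto_natCast_atTop_atTop.eventually hlo
  refine (hf.and_eventually (hlo2.and (eventually_ge_atTop 3))).mono ?_
  rintro m ⟨⟨n, b, t, f, ht, hb, hD, hCA, hC⟩, hm1, hm3⟩
  have hmR : (3 : ℝ) ≤ m := by exact_mod_cast hm3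
  have hlm1 : 1 < Real.log m := by
    rw [Real.lt_log_iff_exp_lt (by linarith)]
    linarith [Real.exp_one_lt_d9]
  have hlm : 0 < Real.log m := by linarith
  obtain ⟨N, hNlt, hN⟩ := main_dt (K := K + 2) (t := t + 1) (T := 1) (k := k) f
    (fun i j => (hD i j).succ) (by omega) hh (by omega) hk (fun _ => A) hCA
    (fun i x => val_lt (by omega) hb hC i x) (fun v => fib_one hC v)
  have ht1 : ((t + 1 : ℕ) : ℝ) ≤ (B + 1) * Real.log m ^ e := by
    push_cast
    have : (1 : ℝ) ≤ Real.log m ^ e := one_le_pow₀ hlm1.le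
    nlinarith
  have h1 : h * (c1 * m / Real.log m ^ (2 * e) + c1 * m / Real.log m ^ (2 * e)) ≤
      Real.log 2 / (4608 * (h * ((K + 2 : ℕ) : ℝ))) * (m / ((t + 1 : ℕ) : ℝ) ^ 2) := by
    have h2 : (m : ℝ) / ((B + 1) * Real.log m ^ e) ^ 2 ≤ m / ((t + 1 : ℕ) : ℝ) ^ 2 := by
      gcongr
    calc h * (c1 * m / Real.log m ^ (2 * e) + c1 * m / Real.log m ^ (2 * e)) =
        Real.log 2 / (4608 * (h * ((K + 2 : ℕ) : ℝ))) *
          (m / ((B + 1) * Real.log m ^ e) ^ 2) := by
          rw [hc1, mul_comm 2 e, pow_mul]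
          push_cast
          field_simp
          ring
      _ ≤ _ := by gcongr
  have hN' := (Real.exp_le_exp.2 h1).trans hN
  push_cast at hN'
  rw [one_mul] at hN'
  obtain ⟨N0, hN0, hN1⟩ := prod_max hh A N hNlt hN'
  refine ⟨N0, hN0, exp_half ?_ hN1⟩
  rw [Real.rpow_natCast, Real.rpow_one, Real.norm_of_nonneg (by positivity),
    Real.norm_of_nonneg (by positivity)] at hm1
  rw [le_div_iff₀ (by positivity), one_mul]
  exact hm1

/-- **Bounded representation functions need many digit probes.** -/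
theorem lower_dt (A : Set ℕ) {k R : ℕ} (hk : 2 ≤ k) (hR : ∀ n, rep A k n ≤ R) (h K : ℕ)
    (hh : 1 ≤ h) : ∃ c : ℝ, 0 < c ∧ ∀ᶠ m : ℕ in atTop,
    ∀ (n b t : ℕ) (f : Fin h → Fin n → (Fin m → Bool) → Bool),
      b ≤ 2 ^ (K * m) → (∀ i j, DT t (f i j)) →
      (∀ i x, number (f i) x ∈ A) → (∀ x, ∑ i, number (f i) x = b + num x) →
      c * Real.sqrt m ≤ t := by
  classical
  have hhR : (1 : ℝ) ≤ h := by exact_mod_cast hh
  have hl2 : 0 < Real.log 2 := Real.log_pos (by norm_num)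
  set L : ℝ := |h * Real.log (2 * R)| + 1 with hL
  have hL0 : 0 < L := by positivity
  set c0 : ℝ := Real.log 2 / (4608 * (h * ((K + 2 : ℕ) : ℝ))) with hc0
  have hc00 : 0 < c0 := by positivity
  set c1 : ℝ := Real.sqrt (c0 / L) with hc1
  have hc10 : 0 < c1 := Real.sqrt_pos.2 (by positivity)
  refine ⟨c1 / 2, by positivity, ?_⟩
  have hev : ∀ᶠ m : ℕ in atTop, 2 / c1 ≤ Real.sqrt m :=
    (Real.tendsto_sqrt_atTop.comp tendsto_natCast_atTop_atTop).eventually
      (eventually_ge_atTop (2 / c1))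
  filter_upwards [hev, eventually_ge_atTop 1] with m hm1 hm2
  intro n b t f hb hD hCA hC
  obtain ⟨N, _, hN⟩ := main_dt (K := K + 2) (t := t + 1) (T := 1) (k := k) f
    (fun i j => (hD i j).succ) (by omega) hh (by omega) hk (fun _ => A) hCA
    (fun i x => val_lt (by omega) hb hC i x) (fun v => fib_one hC v)
  have h1 : Real.exp (c0 * (m / ((t + 1 : ℕ) : ℝ) ^ 2)) ≤ (2 * R) ^ h := by
    refine hN.trans ?_
    push_cast
    rw [one_mul]
    refine (Finset.prod_le_prod (fun i _ => by positivity) (g := fun _ => 2 * (R : ℝ))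
      fun i _ => ?_).trans (le_of_eq ?_)
    · have : (rep A k (N i) : ℝ) ≤ R := by exact_mod_cast hR (N i)
      linarith
    · rw [Finset.prod_const, Finset.card_univ, Fintype.card_fin]
  have h2 : c0 * (m / ((t + 1 : ℕ) : ℝ) ^ 2) ≤ L := by
    have := Real.log_le_log (Real.exp_pos _) h1
    rw [Real.log_exp, Real.log_pow] at this
    have h3 := le_abs_self (h * Real.log (2 * R))
    linarith
  have h3 : c0 / L * m ≤ ((t + 1 : ℕ) : ℝ) ^ 2 := by
    rw [mul_div_assoc', div_le_iff₀ (by positivity)] at h2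
    rw [div_mul_eq_mul_div, div_le_iff₀ hL0]
    linarith
  have h4 : c1 * Real.sqrt m ≤ ((t + 1 : ℕ) : ℝ) := by
    have h5 := Real.sqrt_le_sqrt h3
    rw [Real.sqrt_sq (by positivity), Real.sqrt_mul (by positivity)] at h5
    exact h5
  have h5 : 2 ≤ c1 * Real.sqrt m := by
    rw [div_le_iff₀ hc10] at hm1
    linarith
  push_cast at h4
  linarith

end Pool.Agent.N714.Dec
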