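import Pool.Agent.R532.EtFin

/-!
# Cubes on which every digit depends on at most one variable
-/

set_option autoImplicit false

namespace Pool.Agent.N714.Dec

open Finset DomAC0 Filter Pool.Agent.R532.Et

/-- The number whose binary digits are `f 0 x, …, f (n - 1) x`. -/
noncomputable def number {m n : ℕ} (f : Fin n → (Fin m → Bool) → Bool) (x : Fin m → Bool) : ℕ :=
  ∑ j : Fin n, if f j x = true then 2 ^ (j : ℕ) else 0

theorem number_eq {m n : ℕ} (f : Fin n → (Fin m → Bool) → Bool) (x : Fin m → Bool) :
    number f x = num (fun j => f j x) := rfl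

theorem number_lt {m n : ℕ} (f : Fin n → (Fin m → Bool) → Bool) (x : Fin m → Bool) :
    number f x < 2 ^ n := num_lt _

theorem number_inj {m n : ℕ} {f : Fin n → (Fin m → Bool) → Bool} {x y : Fin m → Bool}
    (h : number f x = number f y) (j : Fin n) : f j x = f j y := by
  rw [number_eq, number_eq] at h
  exact congrFun (num_inj h) j

theorem number_congr {m n : ℕ} {f : Fin n → (Fin m → Bool) → Bool} {x y : Fin m → Bool}
    (h : ∀ j, f j x = f j y) : number f x = number f y := by
  unfold number
  exact Finset.sum_congr rfl fun j _ => by rw [h j]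

/-- `x` is in the cube given by `z` and the set `I0` of free variables -/
def In {m : ℕ} (z : Fin m → Bool) (I0 : Finset (Fin m)) (x : Fin m → Bool) : Prop :=
  ∀ i, i ∉ I0 → x i = z i

theorem In.mono {m : ℕ} {z : Fin m → Bool} {I0 I1 : Finset (Fin m)} (h : I1 ⊆ I0)
    {x : Fin m → Bool} (hx : In z I1 x) : In z I0 x := fun i hi => hx i fun h1 => hi (h h1)

/-- on the cube, every digit depends on at most one variable -/
def One {m n : ℕ} (f : Fin n → (Fin m → Bool) → Bool) (z : Fin m → Bool)
    (I0 : Finset (Fin m)) : Prop :=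
  ∀ j, ∃ U : Finset (Fin m), U.card ≤ 1 ∧ ∀ x y : Fin m → Bool, In z I0 x → In z I0 y →
    (∀ i ∈ U, x i = y i) → f j x = f j y

theorem One.mono {m n : ℕ} {f : Fin n → (Fin m → Bool) → Bool} {z : Fin m → Bool}
    {I0 I1 : Finset (Fin m)} (h : I1 ⊆ I0) (H : One f z I0) : One f z I1 := by
  intro j
  obtain ⟨U, hU, hd⟩ := H j
  exact ⟨U, hU, fun x y hx hy => hd x y (hx.mono h) (hy.mono h)⟩

/-- complementary inputs have a constant sum of values -/
theorem pair {m n : ℕ} {f : Fin n → (Fin m → Bool) → Bool} {z : Fin m → Bool}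
    {I0 : Finset (Fin m)} (H : One f z I0) {x y : Fin m → Bool} (hx : In z I0 x)
    (hy : In z I0 y) :
    number f x + number f (fl I0 x) = number f y + number f (fl I0 y) := by
  have hfx : In z I0 (fl I0 x) := fun i hi => by
    unfold fl; rw [if_neg hi]; exact hx i hi
  have hfy : In z I0 (fl I0 y) := fun i hi => by
    unfold fl; rw [if_neg hi]; exact hy i hi
  unfold number
  rw [← Finset.sum_add_distrib, ← Finset.sum_add_distrib]
  refine Finset.sum_congr rfl fun j _ => ?_
  obtain ⟨U, hU, hd⟩ := H j
  by_cases hag : ∀ i ∈ U, x i = y i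
  · rw [hd x y hx hy hag, hd (fl I0 x) (fl I0 y) hfx hfy]
    intro i hi
    unfold fl
    rw [hag i hi]
  · push Not at hag
    obtain ⟨u, huU, hne⟩ := hag
    have hall : ∀ i ∈ U, i = u := fun i hi => Finset.card_le_one.1 hU i hi u huU
    have huI : u ∈ I0 := by
      by_contra hcon
      exact hne ((hx u hcon).trans (hy u hcon).symm)
    have h1 : f j x = f j (fl I0 y) := by
      apply hd x _ hx hfy
      intro i hi
      rw [hall i hi]
      unfold fl
      rw [if_pos huI]
      cases hxu : x u <;> cases hyu : y u <;> simp_all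
    have h2 : f j (fl I0 x) = f j y := by
      apply hd _ y hfx hy
      intro i hi
      rw [hall i hi]
      unfold fl
      rw [if_pos huI]
      cases hxu : x u <;> cases hyu : y u <;> simp_all
    rw [h1, h2, add_comm]

open Classical in
/-- the variables of the cube on which some digit depends -/
noncomputable def live {m n : ℕ} (f : Fin n → (Fin m → Bool) → Bool) (z : Fin m → Bool)
    (I0 : Finset (Fin m)) : Finset (Fin m) :=
  I0.filter fun u => ∃ j x, In z I0 x ∧ f j x ≠ f j (Function.update x u (!x u))

theorem live_sub {m n : ℕ} (f : Fin n → (Fin m → Bool) → Bool) (z : Fin m → Bool)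
    (I0 : Finset (Fin m)) : live f z I0 ⊆ I0 := by
  classical
  exact Finset.filter_subset _ _

theorem in_update {m : ℕ} {z : Fin m → Bool} {I0 : Finset (Fin m)} {x : Fin m → Bool}
    (hx : In z I0 x) {u : Fin m} (hu : u ∈ I0) (b : Bool) : In z I0 (Function.update x u b) := by
  intro i hi
  have : i ≠ u := fun h => hi (h ▸ hu)
  rw [Function.update_of_ne this]
  exact hx i hi

/-- inputs which agree on the live variables have the same digits -/
theorem live_dep {m n : ℕ} {f : Fin n → (Fin m → Bool) → Bool} {z : Fin m → Bool}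
    {I0 : Finset (Fin m)} (H : One f z I0) {x y : Fin m → Bool} (hx : In z I0 x)
    (hy : In z I0 y) (h : ∀ i ∈ live f z I0, x i = y i) (j : Fin n) : f j x = f j y := by
  classical
  obtain ⟨U, hU, hd⟩ := H j
  by_cases hag : ∀ i ∈ U, x i = y i
  · exact hd x y hx hy hag
  · push Not at hag
    obtain ⟨u, huU, hne⟩ := hag
    have hall : ∀ i ∈ U, i = u := fun i hi => Finset.card_le_one.1 hU i hi u huU
    have huI : u ∈ I0 := by
      by_contra hcon
      exact hne ((hx u hcon).trans (hy u hcon).symm)
    have hul : u ∉ live f z I0 := fun hcon => hne (h u hcon)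
    have h1 : f j x = f j (Function.update x u (!x u)) := by
      by_contra hcon
      exact hul (Finset.mem_filter.2 ⟨huI, j, x, hx, hcon⟩)
    rw [h1]
    apply hd _ y (in_update hx huI _) hy
    intro i hi
    rw [hall i hi, Function.update_self]
    cases hxu : x u <;> cases hyu : y u <;> simp_all

/-- inputs with the same value agree on the live variables -/
theorem live_inj {m n : ℕ} {f : Fin n → (Fin m → Bool) → Bool} {z : Fin m → Bool}
    {I0 : Finset (Fin m)} (H : One f z I0) {x y : Fin m → Bool} (hx : In z I0 x)
    (hy : In z I0 y) (h : number f x = number f y) : ∀ i ∈ live f z I0, x i = y i := by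
  classical
  intro u hu
  obtain ⟨huI, j, w, hw, hne⟩ := Finset.mem_filter.1 hu
  obtain ⟨U, hU, hd⟩ := H j
  have hall : ∀ i ∈ U, i = u := by
    intro i hi
    by_contra hcon
    have hU1 : ∀ k ∈ U, k = i := fun k hk => Finset.card_le_one.1 hU k hk i hi
    apply hne
    apply hd _ _ hw (in_update hw huI _)
    intro k hk
    rw [hU1 k hk, Function.update_of_ne hcon]
  by_contra hcon
  have hj := number_inj h j
  apply hne
  -- `x u ≠ y u`
  have key : ∀ x y : Fin m → Bool, In z I0 x → In z I0 y → x u = w u → y u = !w u →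
      f j x = f j y → f j w = f j (Function.update w u (!w u)) := by
    intro x y hx hy h1 h2 h3
    have h4 : f j w = f j x := hd _ _ hw hx fun i hi => by rw [hall i hi, h1]
    have h5 : f j y = f j (Function.update w u (!w u)) :=
      hd _ _ hy (in_update hw huI _) fun i hi => by rw [hall i hi, h2, Function.update_self]
    rw [h4, h3, h5]
  by_cases hxw : x u = w u
  · refine key x y hx hy hxw ?_ hj
    cases hxu : x u <;> cases hyu : y u <;> simp_all
  · refine key y x hy hx ?_ ?_ hj.symm
    · cases hxu : x u <;> cases hyu : y u <;> simp_all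
    · cases hxu : x u <;> simp_all

open Classical in
/-- the points of a cube -/
theorem card_cube {m : ℕ} (z : Fin m → Bool) (I0 : Finset (Fin m)) :
    (univ.filter fun x : Fin m → Bool => In z I0 x).card = 2 ^ I0.card := by
  rw [← Finset.card_powerset]
  symm
  apply Finset.card_bij
    (fun (S : Finset (Fin m)) _ => fun i => if i ∈ I0 then decide (i ∈ S) else z i)
  · intro S _
    refine Finset.mem_filter.2 ⟨Finset.mem_univ _, fun i hi => ?_⟩
    simp [hi]
  · intro S hS S' hS' he
    have hS1 : S ⊆ I0 := by simpa using hS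
    have hS2 : S' ⊆ I0 := by simpa using hS'
    ext i
    by_cases hi : i ∈ I0
    · have := congrFun he i
      simpa [hi] using this
    · exact ⟨fun h => absurd (hS1 h) hi, fun h => absurd (hS2 h) hi⟩
  · intro x hx
    have hx1 := (Finset.mem_filter.1 hx).2
    refine ⟨I0.filter fun i => x i = true, by simp, ?_⟩
    funext i
    by_cases hi : i ∈ I0
    · simp [hi]
    · simp [hi, hx1 i hi]

open Classical in
theorem many {m n k : ℕ} {f : Fin n → (Fin m → Bool) → Bool} {z : Fin m → Bool}
    {I0 : Finset (Fin m)} (H : One f z I0) (A : Set ℕ) (hA : ∀ x, number f x ∈ A)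
    (hk : 2 ≤ k) :
    ∃ N, N < k * 2 ^ n ∧ 2 ^ (live f z I0).card ≤ 2 * rep A k N := by
  set L := live f z I0 with hL
  have hLs : L ⊆ I0 := live_sub f z I0
  have HL : One f z L := H.mono hLs
  set a := number f z with ha
  set N := a + number f (fl L z) + (k - 2) * a with hN
  refine ⟨N, ?_, ?_⟩
  · have h1 := number_lt f z
    have h2 := number_lt f (fl L z)
    have h3 : N ≤ a + number f (fl L z) + (k - 2) * 2 ^ n := by
      rw [hN]
      exact Nat.add_le_add_left (Nat.mul_le_mul_left _ h1.le) _
    have h4 : k * 2 ^ n = 2 ^ n + 2 ^ n + (k - 2) * 2 ^ n := by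
      obtain ⟨k, rfl⟩ := Nat.exists_eq_add_of_le hk
      rw [Nat.add_sub_cancel_left]
      ring
    omega
  · set P : Finset (Fin m → Bool) := univ.filter fun x => In z L x with hP
    have hPc : 2 ^ L.card = P.card := (card_cube z L).symm
    have hinj : ∀ x ∈ P, ∀ y ∈ P, number f x = number f y → x = y := by
      intro x hx y hy hxy
      have hx1 : In z L x := (Finset.mem_filter.1 hx).2
      have hy1 : In z L y := (Finset.mem_filter.1 hy).2
      have h1 := live_inj H (hx1.mono hLs) (hy1.mono hLs) hxy
      funext i
      by_cases hi : i ∈ L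
      · exact h1 i hi
      · rw [hx1 i hi, hy1 i hi]
    set M : (Fin m → Bool) → Multiset ℕ := fun x =>
      Multiset.replicate (k - 2) a + {number f x, number f (fl L x)} with hM
    have hflP : ∀ x ∈ P, fl L x ∈ P := by
      intro x hx
      have hx1 : In z L x := (Finset.mem_filter.1 hx).2
      refine Finset.mem_filter.2 ⟨Finset.mem_univ _, fun i hi => ?_⟩
      unfold fl
      rw [if_neg hi]
      exact hx1 i hi
    have hfib : ∀ s ∈ P.image M, (P.filter fun x => M x = s).card ≤ 2 := by
      intro s hs
      obtain ⟨x0, hx0, rfl⟩ := Finset.mem_image.1 hs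
      have hsub : (P.filter fun x => M x = M x0) ⊆ {x0, fl L x0} := by
        intro x hx
        obtain ⟨hxP, h1⟩ := Finset.mem_filter.1 hx
        rw [hM] at h1
        have h2 : ({number f x, number f (fl L x)} : Multiset ℕ) =
            {number f x0, number f (fl L x0)} := add_left_cancel h1
        have h3 : number f x ∈ ({number f x0, number f (fl L x0)} : Multiset ℕ) := by
          rw [← h2]
          simp
        have h4 : number f x = number f x0 ∨ number f x = number f (fl L x0) := by
          simpa using h3
        rw [Finset.mem_insert, Finset.mem_singleton]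
        rcases h4 with h4 | h4
        · exact Or.inl (hinj _ hxP _ hx0 h4)
        · exact Or.inr (hinj _ hxP _ (hflP _ hx0) h4)
      exact (Finset.card_le_card hsub).trans (Finset.card_le_two)
    have h1 := Finset.card_le_mul_card_image (f := M) P 2 hfib
    have h2 : (P.image M).card ≤ rep A k N := by
      have h3 : ((P.image M : Finset (Multiset ℕ)) : Set (Multiset ℕ)) ⊆
          Pool.Agent.W167.ET.msets A k N := by
        intro s hs
        obtain ⟨x, hx, rfl⟩ := Finset.mem_image.1 (Finset.mem_coe.1 hs)
        have hxz : In z L x := (Finset.mem_filter.1 hx).2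
        refine ⟨?_, ?_, ?_⟩
        · rw [hM]
          simp
          omega
        · intro b hb
          rw [hM] at hb
          rcases Multiset.mem_add.1 hb with hb | hb
          · rw [Multiset.eq_of_mem_replicate hb]
            exact hA z
          · have hb' : b = number f x ∨ b = number f (fl L x) := by simpa using hb
            rcases hb' with rfl | rfl
            · exact hA _
            · exact hA _
        · rw [hM]
          simp only [Multiset.sum_add, Multiset.sum_replicate, smul_eq_mul,
            Multiset.insert_eq_cons, Multiset.sum_cons, Multiset.sum_singleton]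
          have := pair HL hxz (y := z) (fun _ _ => rfl)
          rw [this, hN]
          ring
      have h4 := Set.ncard_le_ncard h3 (Pool.Agent.W167.ET.msets_finite A k N)
      rw [Set.ncard_coe_finset] at h4
      exact h4
    calc 2 ^ L.card = P.card := hPc
      _ ≤ 2 * (P.image M).card := h1
      _ ≤ 2 * rep A k N := Nat.mul_le_mul_left _ h2

open Classical in
/-- **Several numbers whose sum determines the input up to `T` possibilities.** -/
theorem combine {m n h k T : ℕ} {f : Fin h → Fin n → (Fin m → Bool) → Bool} {z : Fin m → Bool}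
    {I0 : Finset (Fin m)} (H : ∀ i, One (f i) z I0) (A : Fin h → Set ℕ)
    (hA : ∀ i x, number (f i) x ∈ A i) (hk : 2 ≤ k)
    (hT : ∀ v : ℕ, (univ.filter fun x => ∑ i, number (f i) x = v).card ≤ T) :
    ∃ N : Fin h → ℕ, (∀ i, N i < k * 2 ^ n) ∧
      2 ^ I0.card ≤ T * ∏ i, (2 * rep (A i) k (N i)) := by
  choose N hN1 hN2 using fun i => many (H i) (A i) (hA i) hk
  refine ⟨N, hN1, ?_⟩
  set W : Finset (Fin m) := univ.biUnion fun i => live (f i) z I0 with hW
  have hWs : W ⊆ I0 := by
    intro u hu
    obtain ⟨i, _, hi⟩ := Finset.mem_biUnion.1 hu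
    exact live_sub _ _ _ hi
  have h1 : 2 ^ (I0 \ W).card ≤ T := by
    rw [← card_cube z (I0 \ W)]
    refine le_trans (Finset.card_le_card ?_) (hT (∑ i, number (f i) z))
    intro x hx
    have hx1 : In z (I0 \ W) x := (Finset.mem_filter.1 hx).2
    refine Finset.mem_filter.2 ⟨Finset.mem_univ _, ?_⟩
    refine Finset.sum_congr rfl fun i _ => number_congr fun j => ?_
    refine live_dep (H i) (hx1.mono Finset.sdiff_subset) (fun _ _ => rfl) (fun u hu => ?_) j
    apply hx1
    rw [Finset.mem_sdiff]
    intro hcon
    exact hcon.2 (Finset.mem_biUnion.2 ⟨i, Finset.mem_univ _, hu⟩)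
  have h2 : I0.card ≤ (I0 \ W).card + ∑ i, (live (f i) z I0).card := by
    have h3 : I0.card = (I0 \ W).card + W.card := (Finset.card_sdiff_add_card_eq_card hWs).symm
    have h4 : W.card ≤ ∑ i, (live (f i) z I0).card := Finset.card_biUnion_le
    omega
  calc 2 ^ I0.card ≤ 2 ^ ((I0 \ W).card + ∑ i, (live (f i) z I0).card) :=
        Nat.pow_le_pow_right (by norm_num) h2
    _ = 2 ^ (I0 \ W).card * ∏ i, 2 ^ (live (f i) z I0).card := by
        rw [pow_add, Finset.prod_pow_eq_pow_sum]
    _ ≤ T * ∏ i, (2 * rep (A i) k (N i)) :=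
        Nat.mul_le_mul h1 (Finset.prod_le_prod' fun i _ => hN2 i)

end Pool.Agent.N714.Dec
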