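import Pool.Agent.N714.Dec.Live

/-!
# The main inequalities: circuits of constant depth, and digit probes
-/

set_option autoImplicit false

namespace Pool.Agent.N714.Dec

open Finset H568R2 H592R3 DomAC0 Filter Pool.Agent.R532.Et

/-- the range extension of the digits -/
def dg {m n : ℕ} (f : Fin n → (Fin m → Bool) → Bool) (x : Fin m → Bool) (j : ℕ) : ℕ :=
  if hj : j < n then (if f ⟨j, hj⟩ x = true then 2 ^ j else 0) else 0

theorem number_dg {m n : ℕ} (f : Fin n → (Fin m → Bool) → Bool) (x : Fin m → Bool) :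
    number f x = ∑ j ∈ range n, dg f x j := by
  rw [number, ← Fin.sum_univ_eq_sum_range]
  refine Finset.sum_congr rfl fun j _ => ?_
  rw [dg, dif_pos j.2]

/-- the first `min n M` digits -/
def cut {m n : ℕ} (M : ℕ) (f : Fin n → (Fin m → Bool) → Bool) :
    Fin (min n M) → (Fin m → Bool) → Bool :=
  fun j => f (Fin.castLE (min_le_left n M) j)

theorem number_cut {m n M : ℕ} (f : Fin n → (Fin m → Bool) → Bool)
    (hM : ∀ x, number f x < 2 ^ M) (x : Fin m → Bool) :
    number (cut M f) x = number f x := by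
  rw [number_dg, number_dg]
  have h1 : ∀ j ∈ range (min n M), dg (cut M f) x j = dg f x j := by
    intro j hj
    rw [Finset.mem_range] at hj
    have : j < n := lt_of_lt_of_le hj (min_le_left _ _)
    rw [dg, dg, dif_pos hj, dif_pos this]
    rfl
  rw [Finset.sum_congr rfl h1]
  apply Finset.sum_subset (Finset.range_mono (min_le_left n M))
  intro j hj hj2
  rw [Finset.mem_range] at hj hj2
  have hjM : M ≤ j := by omega
  by_contra hne
  have h2 : dg f x j = 2 ^ j := by
    rw [dg, dif_pos hj] at hne ⊢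
    split_ifs with h3
    · rfl
    · rw [if_neg h3] at hne
      exact absurd rfl hne
  have h4 : dg f x j ≤ number f x := by
    rw [number_dg]
    exact Finset.single_le_sum (f := fun j => dg f x j) (fun _ _ => Nat.zero_le _)
      (Finset.mem_range.2 hj)
  have h5 := hM x
  have h6 : 2 ^ M ≤ 2 ^ j := Nat.pow_le_pow_right (by norm_num) hjM
  omega

/-- all digits of the `h` numbers as one family -/
def flat {m n h : ℕ} (f : Fin h → Fin n → (Fin m → Bool) → Bool) :
    Fin (h * n) → (Fin m → Bool) → Bool :=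
  fun j => f (finProdFinEquiv.symm j).1 (finProdFinEquiv.symm j).2

theorem One.of_flat {m n h : ℕ} {f : Fin h → Fin n → (Fin m → Bool) → Bool} {z : Fin m → Bool}
    {I0 : Finset (Fin m)} (H : One (flat f) z I0) (i : Fin h) : One (f i) z I0 := by
  intro j
  obtain ⟨U, hU, hd⟩ := H (finProdFinEquiv (i, j))
  refine ⟨U, hU, fun x y hx hy hxy => ?_⟩
  have := hd x y hx hy hxy
  simpa [flat] using this

open Classical in
/-- **Decision trees of depth `t`: many variables, all digits depending on at most one.** -/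
theorem cube_dt {m n K t : ℕ} (f : Fin n → (Fin m → Bool) → Bool) (hf : ∀ j, DT t (f j))
    (hn : n ≤ K * m) (hK : 1 ≤ K) (ht : 1 ≤ t) :
    ∃ (z : Fin m → Bool) (I0 : Finset (Fin m)),
      (m : ℝ) / (4608 * K * t ^ 2) ≤ I0.card ∧ One f z I0 := by
  have hhR : (1 : ℝ) ≤ t := by exact_mod_cast ht
  have hKR : (1 : ℝ) ≤ K := by exact_mod_cast hK
  set p : ℝ := 1 / (2304 * K * t ^ 2) with hp
  have hp0 : 0 < p := by positivity
  have hKt : (1 : ℝ) ≤ K * t ^ 2 := by nlinarith
  have hp8 : p ≤ 1 / 2304 := by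
    rw [hp]
    apply one_div_le_one_div_of_le (by norm_num)
    nlinarith
  set x : ℝ := 24 * t * p with hx
  have hxe : x = 1 / (96 * K * t) := by
    rw [hx, hp]
    field_simp
    norm_num
  have hx0 : 0 ≤ x := by positivity
  have hx1 : x ≤ 1 / 2 := by
    rw [hxe]
    apply one_div_le_one_div_of_le (by norm_num)
    nlinarith
  set num : Restr (Fin m) → ℝ := fun ρ => (((univ.filter fun i => ρ i = none).card : ℕ) : ℝ)
    with hnum
  have hwp : ∀ a, 0 ≤ wq p a := wq_nonneg hp0.le (by linarith)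
  have hE2 : Ex (wq p) (fun τ : Restr (Fin m) => num τ + (-1) * ∑ j : Fin n,
      ∑ l ∈ Ico 1 t, 2 ^ (l + 1) *
        (if ¬ DT l (rs (f j) τ) then (1 : ℝ) else 0)) ≥ m / (4608 * K * t ^ 2) := by
    rw [Ex_add, Ex_smul, Ex_sum, ex_stars, Fintype.card_fin]
    have h1 : ∀ j ∈ (univ : Finset (Fin n)), Ex (wq p) (fun τ : Restr (Fin m) =>
        ∑ l ∈ Ico 1 t, 2 ^ (l + 1) *
          (if ¬ DT l (rs (f j) τ) then (1 : ℝ) else 0)) ≤ 2 * x ^ 2 := by
      intro j _
      rw [Ex_sum]
      have h2 : ∀ l ∈ Ico 1 t, Ex (wq p) (fun τ : Restr (Fin m) => 2 ^ (l + 1) *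
          (if ¬ DT l (rs (f j) τ) then (1 : ℝ) else 0)) ≤ x ^ (l + 1) := by
        intro l _
        rw [Ex_smul]
        have h3 := H592R3.switching (h := l) hp0.le (by linarith : p ≤ 1 / 3) ((hf j).cert true)
        calc (2 : ℝ) ^ (l + 1) * Ex (wq p) (fun τ : Restr (Fin m) =>
            if ¬ DT l (rs (f j) τ) then (1 : ℝ) else 0) ≤
            2 ^ (l + 1) * (12 * t * p) ^ (l + 1) := mul_le_mul_of_nonneg_left h3 (by positivity)
          _ = x ^ (l + 1) := by rw [← mul_pow, hx]; ring
      refine (Finset.sum_le_sum h2).trans ((geo hx0 hx1 t ht).trans ?_)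
      have : 0 ≤ x ^ (t + 1) := by positivity
      linarith
    have h4 := Finset.sum_le_sum h1
    rw [Finset.sum_const, Finset.card_univ, Fintype.card_fin, nsmul_eq_mul] at h4
    have hnR : (n : ℝ) ≤ K * m := by exact_mod_cast hn
    have h5 : (n : ℝ) * (2 * x ^ 2) ≤ (m : ℝ) / (4608 * K * t ^ 2) := by
      calc (n : ℝ) * (2 * x ^ 2) ≤ ((K : ℝ) * m) * (2 * x ^ 2) := by gcongr
        _ = (m : ℝ) / (4608 * K * t ^ 2) := by
          rw [hxe]
          field_simp
          ring
    have h6 : p * (m : ℝ) = 2 * ((m : ℝ) / (4608 * K * t ^ 2)) := by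
      rw [hp]
      field_simp
      ring
    linarith
  obtain ⟨τ, hτ⟩ := exists_ge hwp (wq_sum _) hE2
  set g : Fin n → (Fin m → Bool) → Bool := fun j => rs (f j) τ with hg
  have hgD : ∀ j, DT t (g j) := fun j => dt_rs τ (hf j)
  choose T U hU hdep hT using fun j => dt_split (hgD j)
  set I0 : Finset (Fin m) := (univ.filter fun i => τ i = none) \ univ.biUnion T with hI0
  refine ⟨fun i => (τ i).getD false, I0, ?_, ?_⟩
  · have h1 : (univ.filter fun i => τ i = none).card ≤ I0.card + ∑ j, (T j).card := by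
      have h0 := Finset.le_card_sdiff (univ.biUnion T) (univ.filter fun i => τ i = none)
      have h00 : (univ.biUnion T).card ≤ ∑ j, (T j).card := Finset.card_biUnion_le
      rw [hI0]
      omega
    have h2 : num τ ≤ I0.card + ∑ j, ((T j).card : ℝ) := by
      show (((univ.filter fun i => τ i = none).card : ℕ) : ℝ) ≤ _
      exact_mod_cast h1
    have h3 : ∑ j, ((T j).card : ℝ) ≤ ∑ j : Fin n, ∑ l ∈ Ico 1 t, 2 ^ (l + 1) *
        (if ¬ DT l (rs (f j) τ) then (1 : ℝ) else 0) := Finset.sum_le_sum fun j _ => hT j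
    linarith
  · intro j
    refine ⟨U j, hU j, fun x y hx hy hxy => ?_⟩
    have key : ∀ x : Fin m → Bool, (∀ i, i ∉ I0 → x i = (τ i).getD false) →
        g j x = f j x := by
      intro x hx
      rw [hg]
      show f j (ov τ x) = _
      congr 1
      funext i
      unfold ov
      cases hi : τ i with
      | none => rfl
      | some b =>
        have : i ∉ I0 := by
          rw [hI0, Finset.mem_sdiff, Finset.mem_filter, hi]
          simp
        rw [hx i this, hi]
        rfl
    rw [← key x hx, ← key y hy]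
    apply hdep j
    intro i hi
    rcases Finset.mem_union.1 hi with hi | hi
    · have : i ∉ I0 := by
        rw [hI0, Finset.mem_sdiff]
        intro hcon
        exact hcon.2 (Finset.mem_biUnion.2 ⟨j, Finset.mem_univ _, hi⟩)
      rw [hx i this, hy i this]
    · exact hxy i hi

open Classical in
/-- **The inequality for digit probes.** -/
theorem main_dt {m n K t h k T : ℕ} (f : Fin h → Fin n → (Fin m → Bool) → Bool)
    (hf : ∀ i j, DT t (f i j)) (hK : 1 ≤ K) (hh : 1 ≤ h) (ht : 1 ≤ t) (hk : 2 ≤ k)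
    (A : Fin h → Set ℕ) (hA : ∀ i x, number (f i) x ∈ A i)
    (hlt : ∀ i x, number (f i) x < 2 ^ (K * m))
    (hT : ∀ v : ℕ, (univ.filter fun x => ∑ i, number (f i) x = v).card ≤ T) :
    ∃ N : Fin h → ℕ, (∀ i, N i < k * 2 ^ (K * m)) ∧
      Real.exp (Real.log 2 / (4608 * (h * K)) * (m / t ^ 2)) ≤
        T * ∏ i, (2 * (rep (A i) k (N i) : ℝ)) := by
  set f' : Fin h → Fin (min n (K * m)) → (Fin m → Bool) → Bool :=
    fun i => cut (K * m) (f i) with hf'
  have hval : ∀ i x, number (f' i) x = number (f i) x := fun i => number_cut (f i) (hlt i)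
  obtain ⟨z, I0, hI, H⟩ := cube_dt (K := h * K) (t := t) (flat f') (fun j => hf _ _)
    (by rw [mul_assoc]; exact Nat.mul_le_mul_left _ (min_le_right _ _))
    (Nat.mul_pos hh hK) ht
  obtain ⟨N, hN, hrep⟩ := combine (T := T) (k := k) (fun i => One.of_flat H i) A
    (fun i x => by rw [hval]; exact hA i x) hk (fun v => by simp only [hval]; exact hT v)
  refine ⟨N, fun i => lt_of_lt_of_le (hN i) ?_, ?_⟩
  · exact Nat.mul_le_mul_left _ (Nat.pow_le_pow_right (by norm_num) (min_le_right _ _))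
  · have h1 : (2 : ℝ) ^ I0.card ≤ T * ∏ i, (2 * (rep (A i) k (N i) : ℝ)) := by
      exact_mod_cast hrep
    refine le_trans ?_ h1
    rw [← Real.exp_log (show (0 : ℝ) < 2 ^ I0.card by positivity), Real.log_pow]
    apply Real.exp_le_exp.2
    have hl2 : 0 < Real.log 2 := Real.log_pos (by norm_num)
    calc Real.log 2 / (4608 * (h * K)) * (m / t ^ 2) =
        (m : ℝ) / (4608 * ((h * K : ℕ) : ℝ) * t ^ 2) * Real.log 2 := by
          push_cast
          field_simp
      _ ≤ I0.card * Real.log 2 := by gcongr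

open Classical in
/-- **The inequality for circuits.** -/
theorem main_circ (D K h : ℕ) (hK : 1 ≤ K) (hh : 1 ≤ h) : ∃ c : ℝ, 0 < c ∧
    ∀ (m n S T k : ℕ) (A : Fin h → Set ℕ) (C : Circuit (Fin m))
      (out : Fin h → Fin n → Fin m ⊕ Fin C.size),
      1 ≤ m → 2 ≤ S → m ≤ S → C.size ≤ S → 2 ≤ k → (∀ i j, C.nodeDepth (out i j) ≤ D) →
      (∀ i x, number (fun j x => C.nodeVal x (out i j)) x ∈ A i) →
      (∀ i x, number (fun j x => C.nodeVal x (out i j)) x < 2 ^ (K * m)) →
      (∀ v : ℕ, (univ.filter fun x =>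
        ∑ i, number (fun j x => C.nodeVal x (out i j)) x = v).card ≤ T) →
      ∃ N : Fin h → ℕ, (∀ i, N i < k * 2 ^ (K * m)) ∧
        Real.exp (c * m / Real.log S ^ (2 * D + 2)) ≤
          T * ∏ i, (2 * (rep (A i) k (N i) : ℝ)) := by
  have hhK : 1 ≤ h * K := Nat.mul_pos hh hK
  obtain ⟨E, hE, hch⟩ := choice D (h * K) hhK
  have hl2 : 0 < Real.log 2 := Real.log_pos (by norm_num)
  have hKR : (1 : ℝ) ≤ ((h * K : ℕ) : ℝ) := by exact_mod_cast hhK
  refine ⟨Real.log 2 / (16 * ((h * K : ℕ) : ℝ) * (24 * E) ^ (2 * D + 2)), by positivity, ?_⟩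
  intro m n S T k A C out hm hS hmS hCS hk hD hA hlt hT
  obtain ⟨t, ht1, htE, htb⟩ := hch S hS
  have hSR : (2 : ℝ) ≤ S := by exact_mod_cast hS
  have hlS : 0 < Real.log S := Real.log_pos (by linarith)
  set f : Fin h → Fin n → (Fin m → Bool) → Bool := fun i j x => C.nodeVal x (out i j) with hf
  set f' : Fin h → Fin (min n (K * m)) → (Fin m → Bool) → Bool :=
    fun i => cut (K * m) (f i) with hf'
  have hval : ∀ i x, number (f' i) x = number (f i) x := fun i => number_cut (f i) (hlt i)
  set out' : Fin (h * min n (K * m)) → Fin m ⊕ Fin C.size := fun j =>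
    out (finProdFinEquiv.symm j).1
      (Fin.castLE (min_le_left n (K * m)) (finProdFinEquiv.symm j).2) with hout'
  obtain ⟨z, I0, hI, H⟩ := cube (D := D) (K := h * K) (h := t) C out' (fun j => hD _ _)
    (by rw [mul_assoc]; exact Nat.mul_le_mul_left _ (min_le_right _ _)) hhK ht1 hm (by
      refine le_trans ?_ htb
      have h1 : C.size * (m + C.size + 1) ≤ S * (3 * S) := Nat.mul_le_mul hCS (by omega)
      exact Nat.mul_le_mul_right _ (Nat.mul_le_mul_left _ h1))
  have H' : One (flat f') z I0 := H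
  obtain ⟨N, hN, hrep⟩ := combine (T := T) (k := k) (fun i => One.of_flat H' i) A
    (fun i x => by rw [hval]; exact hA i x) hk (fun v => by simp only [hval]; exact hT v)
  refine ⟨N, fun i => lt_of_lt_of_le (hN i) ?_, ?_⟩
  · exact Nat.mul_le_mul_left _ (Nat.pow_le_pow_right (by norm_num) (min_le_right _ _))
  · have h1 : (2 : ℝ) ^ I0.card ≤ T * ∏ i, (2 * (rep (A i) k (N i) : ℝ)) := by
      exact_mod_cast hrep
    refine le_trans ?_ h1
    rw [← Real.exp_log (show (0 : ℝ) < 2 ^ I0.card by positivity), Real.log_pow]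
    apply Real.exp_le_exp.2
    have htR : (1 : ℝ) ≤ t := by exact_mod_cast ht1
    have h2 : (m : ℝ) / (16 * ((h * K : ℕ) : ℝ) * (24 * (E * Real.log S)) ^ (2 * D + 2)) ≤
        (m : ℝ) / (16 * ((h * K : ℕ) : ℝ) * (24 * t) ^ (2 * D + 2)) := by gcongr
    have h3 := h2.trans hI
    calc Real.log 2 / (16 * ((h * K : ℕ) : ℝ) * (24 * E) ^ (2 * D + 2)) * m /
        Real.log S ^ (2 * D + 2) =
        (m : ℝ) / (16 * ((h * K : ℕ) : ℝ) * (24 * (E * Real.log S)) ^ (2 * D + 2)) *
          Real.log 2 := by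
          rw [show 24 * (E * Real.log S) = 24 * E * Real.log S by ring,
            mul_pow (24 * E) (Real.log S)]
          field_simp
      _ ≤ I0.card * Real.log 2 := by gcongr

end Pool.Agent.N714.Dec
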